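import Pool.Agent.Work.MP_c9087a_co.Main

/-- For every `ℓ ≥ 2` and every finite nonempty graph `G` without a cycle on exactly `ℓ + 1` vertices
(as a subgraph), the chromatic discrepancy of `G` is at least `χ(G) - ℓ`. -/
theorem Pool.Agent.Results.MP_c9087a_co.CycleFreeDiscrepancy.result
    {V : Type*} [Finite V] [Nonempty V] (G : SimpleGraph V) (ℓ : ℕ) (hℓ : 2 ≤ ℓ)
    (hfree : (SimpleGraph.cycleGraph (ℓ + 1)).Free G) :
    (Pool.Agent.Work.MP_c9087a_co.chi G : ℤ) - ℓ ≤ Pool.Agent.Work.MP_c9087a_co.discrepancy G :=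
  Pool.Agent.Work.MP_c9087a_co.main G ℓ hℓ hfree
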